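import Pool.Agent.helper55.NTS.TM

/-!
# MP_c8d30a, THEOREM (A): the number of one sided tokens of a symbolic state
-/

set_option autoImplicit false

namespace NTS

open NTH

/-- the tokens of a symbolic word. -/
def toks : List Atom → List (ℕ × Bool)
  | [] => []
  | .t l b :: L => (l, b) :: toks L
  | .w _ :: L => toks L

/-- the blocks of a symbolic word. -/
def wds : List Atom → List ℕ
  | [] => []
  | .t _ _ :: L => wds L
  | .w i :: L => i :: wds L

/-- number of tokens with the partner in the same list. -/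
def cnt2 (L : List (ℕ × Bool)) : ℕ := L.countP (fun a => decide ((a.1, !a.2) ∈ L))

def d2s (s : Sym) : ℕ := cnt2 (toks s.1) + cnt2 (toks s.2)

def full (s : Sym) : Prop := ∀ a ∈ toks s.1 ++ toks s.2, (a.1, !a.2) ∈ toks s.1 ++ toks s.2

instance (s : Sym) : Decidable (full s) := by unfold full; infer_instance

/-- the check: blocks in the same words, `d2s` drops by `d`. -/
def chkD (d : ℕ) (s0 s1 : Sym) : Bool :=
  decide (full s0) && decide (full s1) && decide ((wds s0.1).Perm (wds s1.1)) && decide ((wds s0.2).Perm (wds s1.2)) &&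
    decide (d2s s1 + d ≤ d2s s0)

universe u
variable {Ω : Type u} {p : Ω → Ω} {τ : ℕ → Ω} {β : ℕ → List Ω}

theorem D2_perm {s t : St Ω} (h1 : s.1.Perm t.1) (h2 : s.2.Perm t.2) : D2 p s = D2 p t := by
  classical
  unfold D2
  congr 1
  · rw [h1.countP_eq]
    apply List.countP_congr
    intro a _
    simp only [decide_eq_true_eq, h1.mem_iff]
  · rw [h2.countP_eq]
    apply List.countP_congr
    intro a _
    simp only [decide_eq_true_eq, h2.mem_iff]

/-- the explicit tokens of a word. -/
def tw (p : Ω → Ω) (τ : ℕ → Ω) (L : List Atom) : List Ω := (toks L).map fun a => tk p τ a.1 a.2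

/-- the block part of a word. -/
def bw (β : ℕ → List Ω) (L : List Atom) : List Ω := (wds L).flatMap β

theorem evl_perm (L : List Atom) : (evl p τ β L).Perm (tw p τ L ++ bw β L) := by
  induction L with
  | nil => exact List.Perm.refl _
  | cons a L ih =>
    cases a with
    | t l b =>
      rw [evl_t]
      simp only [tw, toks, List.map_cons, bw, wds, List.cons_append]
      exact ih.cons _
    | w i =>
      rw [evl_w]
      simp only [tw, toks, bw, wds, List.flatMap_cons]
      have h1 := ih.append_left (β i)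
      refine h1.trans ?_
      have h2 : (β i ++ (tw p τ L ++ bw β L)).Perm ((tw p τ L ++ β i) ++ bw β L) := by
        rw [← List.append_assoc]
        exact List.Perm.append_right _ List.perm_append_comm
      refine h2.trans ?_
      rw [List.append_assoc]
      exact List.Perm.refl _

theorem D2_evs (hinv : ∀ t, p (p t) = t) {s : Sym} (hf : full s)
    (hnd : ((evs p τ β s).1 ++ (evs p τ β s).2).Nodup) :
    D2 p (evs p τ β s) = d2s s + D2 p (bw β s.1, bw β s.2) := by
  classical
  have hP1 := evl_perm (p := p) (τ := τ) (β := β) s.1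
  have hP2 := evl_perm (p := p) (τ := τ) (β := β) s.2
  rw [D2_perm (t := (tw p τ s.1 ++ bw β s.1, tw p τ s.2 ++ bw β s.2)) hP1 hP2]
  have hnd2 : ((tw p τ s.1 ++ bw β s.1) ++ (tw p τ s.2 ++ bw β s.2)).Nodup :=
    ((hP1.append hP2).nodup_iff).mp hnd
  -- explicit tokens are closed under `p`
  have hcl : ∀ t ∈ tw p τ s.1 ++ tw p τ s.2, p t ∈ tw p τ s.1 ++ tw p τ s.2 := by
    intro t ht
    unfold tw at ht ⊢
    rw [← List.map_append] at ht ⊢
    obtain ⟨a, ha, rfl⟩ := List.mem_map.mp ht
    rw [p_tk hinv]
    exact List.mem_map.mpr ⟨(a.1, !a.2), hf a ha, rfl⟩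
  have hndT : (tw p τ s.1 ++ tw p τ s.2).Nodup := by
    refine hnd2.sublist ?_
    exact (List.sublist_append_left _ _).append (List.sublist_append_left _ _)
  have hinj : ∀ a ∈ toks s.1 ++ toks s.2, ∀ b ∈ toks s.1 ++ toks s.2,
      tk p τ a.1 a.2 = tk p τ b.1 b.2 → a = b := by
    unfold tw at hndT
    rw [← List.map_append] at hndT
    intro a ha b hb hab
    exact List.inj_on_of_nodup_map hndT ha hb hab
  -- disjointness
  have hdis : ∀ t, (t ∈ tw p τ s.1 ∨ t ∈ tw p τ s.2) → (t ∈ bw β s.1 ∨ t ∈ bw β s.2) → False := by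
    intro t h1 h2
    have h3 := List.nodup_iff_count_le_one.mp hnd2 t
    simp only [List.count_append] at h3
    rcases h1 with h1 | h1 <;> rcases h2 with h2 | h2 <;>
    · have := List.count_pos_iff.mpr h1
      have := List.count_pos_iff.mpr h2
      omega
  have hT : ∀ L : List Atom, (L = s.1 ∨ L = s.2) →
      (tw p τ L).countP (fun t => decide (p t ∈ tw p τ L ++ bw β L)) = cnt2 (toks L) := by
    intro L hL
    unfold cnt2
    rw [tw, List.countP_map]
    apply List.countP_congr
    rintro ⟨l, b⟩ ha
    simp only [Function.comp, decide_eq_true_eq, p_tk hinv]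
    have hmem : (l, b) ∈ toks s.1 ++ toks s.2 := by
      rcases hL with rfl | rfl
      · exact List.mem_append_left _ ha
      · exact List.mem_append_right _ ha
    have hmem2 : (l, !b) ∈ toks s.1 ++ toks s.2 := hf _ hmem
    have hsub : ∀ a ∈ toks L, a ∈ toks s.1 ++ toks s.2 := by
      intro a h
      rcases hL with rfl | rfl
      · exact List.mem_append_left _ h
      · exact List.mem_append_right _ h
    constructor
    · intro h
      rcases List.mem_append.mp h with h | h
      · obtain ⟨a, h1, h2⟩ := List.mem_map.mp h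
        have := hinj _ (hsub a h1) _ hmem2 h2
        rw [← this]
        exact h1
      · exfalso
        refine hdis (tk p τ l (!b)) ?_ (by rcases hL with rfl | rfl; exact Or.inl h; exact Or.inr h)
        rcases List.mem_append.mp hmem2 with h3 | h3
        · exact Or.inl (List.mem_map.mpr ⟨_, h3, rfl⟩)
        · exact Or.inr (List.mem_map.mpr ⟨_, h3, rfl⟩)
    · intro h
      exact List.mem_append_left _ (List.mem_map.mpr ⟨_, h, rfl⟩)
  have hB : ∀ L : List Atom, (L = s.1 ∨ L = s.2) →
      (bw β L).countP (fun t => decide (p t ∈ tw p τ L ++ bw β L)) = (bw β L).countP (fun t => decide (p t ∈ bw β L)) := by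
    intro L hL
    apply List.countP_congr
    intro t ht
    simp only [decide_eq_true_eq]
    constructor
    · intro h
      rcases List.mem_append.mp h with h | h
      · exfalso
        have h1 : p t ∈ tw p τ s.1 ++ tw p τ s.2 := by
          rcases hL with rfl | rfl
          · exact List.mem_append_left _ h
          · exact List.mem_append_right _ h
        have h2 := hcl _ h1
        rw [hinv] at h2
        refine hdis t (List.mem_append.mp h2) ?_
        rcases hL with rfl | rfl
        · exact Or.inl ht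
        · exact Or.inr ht
      · exact h
    · intro h
      exact List.mem_append_right _ h
  unfold D2 d2s
  simp only [List.countP_append]
  rw [hT s.1 (Or.inl rfl), hT s.2 (Or.inr rfl), hB s.1 (Or.inl rfl), hB s.2 (Or.inr rfl)]
  omega

theorem drop_sound (hinv : ∀ t, p (p t) = t) {d : ℕ} {s0 s1 : Sym} (h : chkD d s0 s1 = true)
    (hnd : ((evs p τ β s0).1 ++ (evs p τ β s0).2).Nodup) (hnd1 : ((evs p τ β s1).1 ++ (evs p τ β s1).2).Nodup) :
    D2 p (evs p τ β s1) + d ≤ D2 p (evs p τ β s0) := by
  unfold chkD at h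
  simp only [Bool.and_eq_true, decide_eq_true_eq] at h
  obtain ⟨⟨⟨⟨h1, h2⟩, h3⟩, h4⟩, h5⟩ := h
  rw [D2_evs hinv h1 hnd, D2_evs hinv h2 hnd1]
  have : D2 p (bw β s0.1, bw β s0.2) = D2 p (bw β s1.1, bw β s1.2) :=
    D2_perm (h3.flatMap_right β) (h4.flatMap_right β)
  omega

/-- **certificates.** -/
theorem cert (hinv : ∀ t, p (p t) = t) (τ : ℕ → Ω) (β : ℕ → List Ω) (d : ℕ) (l : List Mv) (s0 s1 : Sym)
    (h : run l s0 = some s1) (hc : chkD d s0 s1 = true) (hnd : ((evs p τ β s0).1 ++ (evs p τ β s0).2).Nodup) :
    Chain p (cost l) (evs p τ β s0) (evs p τ β s1) ∧ D2 p (evs p τ β s1) + d ≤ D2 p (evs p τ β s0) := by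
  have h1 := run_sound hinv τ β l s0 s1 h
  exact ⟨h1, drop_sound hinv hc hnd (h1.perm.nodup_iff.mp hnd)⟩

end NTS
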