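import Pool.Agent.helper55.NTS.Lift
import Pool.Agent.helper3.NTS.EM

/-!
# MP_c8d30a, THEOREM (A): `Hop` (counts Theta moves) and helper3's `EM` (counts steps) are the same moves
-/

set_option autoImplicit false

namespace NTS

open NTH

universe u
variable {Ω : Type u} {p : Ω → Ω}

theorem SS_eq_real (e : Ω) (s : St Ω) : SS p e s = real p e s := rfl

theorem Hop.em {k : ℕ} {s t : St Ω} (h : Hop p k s t) : ∃ c, EM p c s t ∧ (k = 0 → c = 0) ∧ c ≤ k * (s.1 ++ s.2).length := by
  cases h with
  | rot X Y B => exact ⟨0, .rot X Y B, by simp, by simp⟩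
  | cm x y z P Q R P' Q' R1 R2 =>
    exact ⟨0, by simpa using EM.cm (p := p) x y z P Q R R2 P' Q' R1, by simp, by simp⟩
  | th1 c x y P Q R S1 S2 G T =>
    refine ⟨_, by simpa using EM.th2 (p := p) c x y P Q R S1 S2 G T, by simp, ?_⟩
    simp only [List.length_append, List.length_cons]
    omega
  | th2 c x y P Q R S G T1 T2 =>
    refine ⟨_, by simpa using EM.th1 (p := p) c x y P Q R S G T1 T2, by simp, ?_⟩
    simp only [List.length_append, List.length_cons]
    omega

theorem EM.hop {c : ℕ} {s t : St Ω} (h : EM p c s t) : ∃ k ≤ 1, Hop p k s t ∧ (c = 0 → k = 0) := by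
  cases h with
  | rot X Y B => exact ⟨0, by omega, .rot X Y B, by simp⟩
  | cm a b c P Q R D P' Q' R' =>
    exact ⟨0, by omega, by simpa using Hop.cm (p := p) a b c P Q R P' Q' R' D, by simp⟩
  | th1 c x y P Q R D G E1 E2 =>
    exact ⟨1, by omega, by simpa using Hop.th2 (p := p) c x y P Q R D G E1 E2, by omega⟩
  | th2 c x y P Q R D1 D2 G E =>
    exact ⟨1, by omega, by simpa using Hop.th1 (p := p) c x y P Q R D1 D2 G E, by omega⟩

/-- a property of single moves that is transported by `EM` is transported by chains. -/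
theorem Chain.ind {Pr : St Ω → Prop} (hp : ∀ (c : ℕ) (s t : St Ω), EM p c s t → Pr s → Pr t) {k : ℕ} {s t : St Ω}
    (h : Chain p k s t) (hs : Pr s) : Pr t := by
  induction h with
  | refl _ => exact hs
  | step h1 _ ih =>
    obtain ⟨c, h2, -⟩ := h1.em
    exact ih (hp c _ _ h2 hs)

/-- a sequence of `EM` moves of cost zero is a chain without Theta moves. -/
theorem EMs.chain0 {k : ℕ} {s t : St Ω} (h : EMs p k s t) (hk : k = 0) : Chain p 0 s t := by
  induction h with
  | refl s => exact .refl s
  | @head a b s t v h1 _ ih =>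
    obtain ⟨j, -, h2, h3⟩ := h1.hop
    obtain rfl := h3 (by omega)
    simpa using Chain.step h2 (ih (by omega))

end NTS
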