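import Pool.Agent.helper55.NTS.S

/-!
# MP_c8d30a, THEOREM (A): substates, lifting of chains, the number of one sided tokens

`filt K s`: the tokens outside of `K` are deleted. `D2 p s`: the number of tokens whose partner is in the same word (`2 (r + b)`).
`drop_lift`: a chain of the substate which lowers `D2` by `d` lifts to a chain of `s` which lowers `D2` by at least `d`, if the deleted letters are one sided (red or blue).
-/

set_option autoImplicit false

namespace NTS

open NTH

universe u
variable {Ω : Type u} {p : Ω → Ω}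

/-- the substate. -/
def filt (K : Ω → Bool) (s : St Ω) : St Ω := (s.1.filter K, s.2.filter K)

theorem filter_split {K : Ω → Bool} {L P M : List Ω} {x : Ω} (h : L.filter K = P ++ x :: M) :
    ∃ P' M' : List Ω, L = P' ++ x :: M' ∧ P'.filter K = P ∧ M'.filter K = M := by
  obtain ⟨l1, l2, rfl, h1, h2⟩ := List.filter_eq_append_iff.mp h
  obtain ⟨l3, l4, rfl, h3, h4, h5⟩ := List.filter_eq_cons_iff.mp h2
  refine ⟨l1 ++ l3, l4, by simp, ?_, h5⟩
  rw [List.filter_append, h1]
  have : l3.filter K = [] := by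
    rw [List.filter_eq_nil_iff]
    exact h3
  rw [this, List.append_nil]

theorem filter_split_cons {K : Ω → Bool} {L M : List Ω} {x : Ω} (h : L.filter K = x :: M) :
    ∃ P' M' : List Ω, L = P' ++ x :: M' ∧ P'.filter K = [] ∧ M'.filter K = M :=
  filter_split (P := []) (by simpa using h)

theorem filter_mem {K : Ω → Bool} {L P M : List Ω} {x : Ω} (h : L.filter K = P ++ x :: M) : K x = true := by
  have : x ∈ L.filter K := by rw [h]; simp
  exact (List.mem_filter.mp this).2

theorem filter_mem_cons {K : Ω → Bool} {L M : List Ω} {x : Ω} (h : L.filter K = x :: M) : K x = true := by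
  have : x ∈ L.filter K := by rw [h]; simp
  exact (List.mem_filter.mp this).2

theorem Hop.lift {K : Ω → Bool} {k : ℕ} {s t0 : St Ω} (h : Hop p k (filt K s) t0) :
    ∃ t, Chain p k s t ∧ filt K t = t0 := by
  obtain ⟨A, B⟩ := s
  generalize hs : filt K (A, B) = s0 at h
  cases h with
  | rot X Y B0 =>
    obtain ⟨hA, hB⟩ := Prod.mk.inj hs
    obtain ⟨A1, A2, rfl, h1, h2⟩ := List.filter_eq_append_iff.mp hA
    exact ⟨(A2 ++ A1, B), Chain.rot _ _ _, by simp [filt, h1, h2, hB]⟩
  | cm x y z P Q R P' Q' R1 R2 =>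
    obtain ⟨hA, hB⟩ := Prod.mk.inj hs
    obtain ⟨A0, A1, rfl, a0, hA1⟩ := filter_split_cons hA
    obtain ⟨P1, A2, rfl, a1, hA2⟩ := filter_split hA1
    obtain ⟨Q1, A3, rfl, a2, a3⟩ := filter_split hA2
    obtain ⟨B0, B1, rfl, b0, hB1⟩ := filter_split hB
    obtain ⟨B2, B3, rfl, b1, hB2⟩ := filter_split hB1
    obtain ⟨B4, B5, rfl, b2, b3⟩ := filter_split hB2
    have kx := filter_mem_cons hA
    have ky := filter_mem hA1
    have kz := filter_mem hA2
    have kx' := filter_mem hB
    have ky' := filter_mem hB1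
    have kz' := filter_mem hB2
    have h1 := Chain.rot (p := p) A0 (x :: (P1 ++ y :: (Q1 ++ z :: A3))) (B0 ++ p x :: (B2 ++ p y :: (B4 ++ p z :: B5)))
    have h2 := (Hop.cm (p := p) x y z P1 Q1 (A3 ++ A0) B2 B4 B5 B0).chain
    refine ⟨_, h1.trans (by simpa using h2), ?_⟩
    simp only [filt, List.filter_append, List.filter_cons, kx, ky, kz, kx', ky', kz', if_true, a0, a1, a2, a3, b0, b1, b2, b3,
      List.append_nil]
  | th1 c x y P Q R S1 S2 G T =>
    obtain ⟨hA, hB⟩ := Prod.mk.inj hs
    obtain ⟨A0, A1, rfl, a0, hA1⟩ := filter_split_cons hA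
    obtain ⟨P1, A2, rfl, a1, hA2⟩ := filter_split hA1
    obtain ⟨Q1, A3, rfl, a2, a3⟩ := filter_split hA2
    obtain ⟨B0, B1, rfl, b0, hB1⟩ := filter_split hB
    obtain ⟨B2, B3, rfl, b1, hB2⟩ := filter_split hB1
    obtain ⟨B4, B5, rfl, b2, b3⟩ := filter_split hB2
    have kx := filter_mem_cons hA
    have ky := filter_mem hA1
    have kz := filter_mem hA2
    have kx' := filter_mem hB
    have ky' := filter_mem hB1
    have kz' := filter_mem hB2
    have h1 := Chain.rot (p := p) A0 (c :: (P1 ++ x :: (Q1 ++ p x :: A3))) (B0 ++ p y :: (B2 ++ y :: (B4 ++ p c :: B5)))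
    have h2 := (Hop.th1 (p := p) c x y P1 Q1 (A3 ++ A0) B0 B2 B4 B5).chain
    refine ⟨_, h1.trans (by simpa using h2), ?_⟩
    simp only [filt, List.filter_append, List.filter_cons, kx, ky, kz, kx', ky', kz', if_true, a0, a1, a2, a3, b0, b1, b2, b3,
      List.append_nil]
  | th2 c x y P Q R S G T1 T2 =>
    obtain ⟨hA, hB⟩ := Prod.mk.inj hs
    obtain ⟨A0, A1, rfl, a0, hA1⟩ := filter_split_cons hA
    obtain ⟨P1, A2, rfl, a1, hA2⟩ := filter_split hA1
    obtain ⟨Q1, A3, rfl, a2, a3⟩ := filter_split hA2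
    obtain ⟨B0, B1, rfl, b0, hB1⟩ := filter_split hB
    obtain ⟨B2, B3, rfl, b1, hB2⟩ := filter_split hB1
    obtain ⟨B4, B5, rfl, b2, b3⟩ := filter_split hB2
    have kx := filter_mem_cons hA
    have ky := filter_mem hA1
    have kz := filter_mem hA2
    have kx' := filter_mem hB
    have ky' := filter_mem hB1
    have kz' := filter_mem hB2
    have h1 := Chain.rot (p := p) A0 (c :: (P1 ++ x :: (Q1 ++ p x :: A3))) (B0 ++ y :: (B2 ++ p c :: (B4 ++ p y :: B5)))
    have h2 := (Hop.th2 (p := p) c x y P1 Q1 (A3 ++ A0) B0 B2 B4 B5).chain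
    refine ⟨_, h1.trans (by simpa using h2), ?_⟩
    simp only [filt, List.filter_append, List.filter_cons, kx, ky, kz, kx', ky', kz', if_true, a0, a1, a2, a3, b0, b1, b2, b3,
      List.append_nil]

/-- **Lifting.** -/
theorem Chain.lift {K : Ω → Bool} {k : ℕ} {s0 t0 : St Ω} (h : Chain p k s0 t0) :
    ∀ s : St Ω, filt K s = s0 → ∃ t, Chain p k s t ∧ filt K t = t0 := by
  induction h with
  | refl s0 => exact fun s hs => ⟨s, .refl s, hs⟩
  | step h1 _ ih =>
    rintro s rfl
    obtain ⟨t, h2, h3⟩ := h1.lift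
    obtain ⟨v, h4, h5⟩ := ih t h3
    exact ⟨v, h2.trans h4, h5⟩

open Classical in
/-- the number of tokens whose partner is in the same word. -/
noncomputable def D2 (p : Ω → Ω) (s : St Ω) : ℕ :=
  s.1.countP (fun t => decide (p t ∈ s.1)) + s.2.countP (fun t => decide (p t ∈ s.2))

theorem D2_le (s : St Ω) : D2 p s ≤ (s.1 ++ s.2).length := by
  unfold D2
  rw [List.length_append]
  exact Nat.add_le_add List.countP_le_length List.countP_le_length

theorem D2_eq_len {s : St Ω} (h1 : ∀ t ∈ s.1, p t ∈ s.1) (h2 : ∀ t ∈ s.2, p t ∈ s.2) : D2 p s = (s.1 ++ s.2).length := by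
  unfold D2
  rw [List.length_append, List.countP_eq_length.mpr (by simpa using h1), List.countP_eq_length.mpr (by simpa using h2)]

theorem D2_filt {K : Ω → Bool} (hK : ∀ t, K (p t) = K t) (s : St Ω) :
    D2 p s = D2 p (filt K s) + D2 p (filt (fun t => !K t) s) := by
  classical
  have key : ∀ L : List Ω, L.countP (fun t => decide (p t ∈ L)) =
      (L.filter K).countP (fun t => decide (p t ∈ L.filter K)) +
      (L.filter (fun t => !K t)).countP (fun t => decide (p t ∈ L.filter (fun t => !K t))) := by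
    intro L
    rw [List.countP_eq_countP_filter_add L _ K]
    congr 1
    · apply List.countP_congr
      intro t ht
      have := (List.mem_filter.mp ht).2
      simp only [decide_eq_true_eq, List.mem_filter, hK, this, and_true]
    · apply List.countP_congr
      intro t ht
      have := (List.mem_filter.mp ht).2
      simp only [decide_eq_true_eq, List.mem_filter, hK, this, and_true]
  unfold D2 filt
  rw [key s.1, key s.2]
  simp only
  omega

theorem drop_lift {K : Ω → Bool} (hK : ∀ t, K (p t) = K t) {k d : ℕ} {s t0 : St Ω} (h : Chain p k (filt K s) t0)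
    (hd : D2 p t0 + d ≤ D2 p (filt K s))
    (hm : ∀ t, K t = false → (t ∈ s.1 → p t ∈ s.1) ∧ (t ∈ s.2 → p t ∈ s.2)) :
    ∃ t, Chain p k s t ∧ filt K t = t0 ∧ D2 p t + d ≤ D2 p s := by
  obtain ⟨t, h1, h2⟩ := h.lift s rfl
  refine ⟨t, h1, h2, ?_⟩
  have e1 := D2_filt hK s
  have e2 := D2_filt hK t
  have e3 := D2_le (p := p) (filt (fun t => !K t) t)
  have e4 : D2 p (filt (fun t => !K t) s) = ((filt (fun t => !K t) s).1 ++ (filt (fun t => !K t) s).2).length := by
    apply D2_eq_len
    · intro u hu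
      simp only [filt, List.mem_filter, Bool.not_eq_true'] at hu ⊢
      exact ⟨(hm u hu.2).1 hu.1, by rw [hK]; exact hu.2⟩
    · intro u hu
      simp only [filt, List.mem_filter, Bool.not_eq_true'] at hu ⊢
      exact ⟨(hm u hu.2).2 hu.1, by rw [hK]; exact hu.2⟩
  have e5 : ((filt (fun t => !K t) s).1 ++ (filt (fun t => !K t) s).2).length =
      ((filt (fun t => !K t) t).1 ++ (filt (fun t => !K t) t).2).length := by
    have := (h1.perm.filter (fun t => !K t)).length_eq
    simpa [filt, List.filter_append] using this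
  rw [h2] at e2
  omega

end NTS
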