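import Pool.Agent.helper3.NTH.Hub

/-!
# MP_c8d30a, THEOREM (A) (helper36, v4): S-states, rotations, triple swaps CM and Theta moves

A state of the pair system: `(A, B)`, `A` cyclic, `B` linear; it stands for the token state `real p e (A, B) = (A ++ [p e], e :: B)`.
`Hop p k s t`: one rotation or triple swap (`k = 0`) or one Theta move (`k = 1`). `Chain p k s t`: a sequence of hops with `k` Theta moves.
`Chain.real`: a chain with `k` Theta moves is a round trip of the token states of cost at most `k * m`.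
`Chain.lift`: chains of a substate (letters deleted) are chains of the state.
-/

set_option autoImplicit false

namespace NTS

open NTH

universe u
variable {Ω : Type u} {p : Ω → Ω}

/-- the token state of a pair. -/
def real (p : Ω → Ω) (e : Ω) (s : St Ω) : St Ω := (s.1 ++ [p e], e :: s.2)

/-- one move. -/
inductive Hop (p : Ω → Ω) : ℕ → St Ω → St Ω → Prop
  | rot (X Y B : List Ω) : Hop p 0 (X ++ Y, B) (Y ++ X, B)
  | cm (x y z : Ω) (P Q R P' Q' R1 R2 : List Ω) :
      Hop p 0 (x :: (P ++ y :: (Q ++ z :: R)), R2 ++ p x :: (P' ++ p y :: (Q' ++ p z :: R1)))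
        (y :: (Q ++ x :: (P ++ z :: R)), R2 ++ p y :: (Q' ++ p x :: (P' ++ p z :: R1)))
  | th1 (c x y : Ω) (P Q R S1 S2 G T : List Ω) :
      Hop p 1 (c :: (P ++ x :: (Q ++ p x :: R)), S1 ++ p y :: (S2 ++ y :: (G ++ p c :: T)))
        (x :: (Q ++ y :: (G ++ p x :: R)), S1 ++ c :: (P ++ p y :: (S2 ++ p c :: T)))
  | th2 (c x y : Ω) (P Q R S G T1 T2 : List Ω) :
      Hop p 1 (c :: (P ++ x :: (Q ++ p x :: R)), S ++ y :: (G ++ p c :: (T1 ++ p y :: T2)))
        (x :: (Q ++ y :: (G ++ p x :: R)), S ++ p c :: (T1 ++ c :: (P ++ p y :: T2)))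

/-- a sequence of moves. -/
inductive Chain (p : Ω → Ω) : ℕ → St Ω → St Ω → Prop
  | refl (s : St Ω) : Chain p 0 s s
  | step {k m : ℕ} {s t v : St Ω} (h : Hop p k s t) (h' : Chain p m t v) : Chain p (k + m) s v

theorem Hop.chain {k : ℕ} {s t : St Ω} (h : Hop p k s t) : Chain p k s t := by
  have := Chain.step h (Chain.refl t)
  simpa using this

theorem Chain.trans {k m : ℕ} {s t v : St Ω} (h : Chain p k s t) (h' : Chain p m t v) : Chain p (k + m) s v := by
  induction h with
  | refl _ => simpa using h'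
  | step h1 _ ih =>
    rw [add_assoc]
    exact .step h1 (ih h')

theorem Chain.rot (X Y B : List Ω) : Chain p 0 (X ++ Y, B) (Y ++ X, B) := (Hop.rot X Y B).chain

theorem Hop.symm (hinv : ∀ t, p (p t) = t) {k : ℕ} {s t : St Ω} (h : Hop p k s t) : Chain p k t s := by
  cases h with
  | rot X Y B => exact (Hop.rot Y X B).chain
  | cm x y z P Q R P' Q' R1 R2 => exact (Hop.cm y x z Q P R Q' P' R1 R2).chain
  | th1 c x y P Q R S1 S2 G T =>
    have h1 : Chain p 0 (x :: (Q ++ y :: (G ++ p x :: R)), S1 ++ c :: (P ++ p y :: (S2 ++ p c :: T)))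
        ((y :: (G ++ p x :: R)) ++ (x :: Q), S1 ++ c :: (P ++ p y :: (S2 ++ p c :: T))) := by
      have := Chain.rot (p := p) (x :: Q) (y :: (G ++ p x :: R)) (S1 ++ c :: (P ++ p y :: (S2 ++ p c :: T)))
      simpa using this
    have h2 := (Hop.th2 (p := p) y (p x) c G R Q S1 P S2 T).chain
    rw [hinv] at h2
    have h3 := Chain.rot (p := p) (p x :: R) (c :: (P ++ x :: Q)) (S1 ++ p y :: (S2 ++ y :: (G ++ p c :: T)))
    have h4 := (h1.trans (by simpa using h2)).trans (by simpa using h3)
    simpa using h4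
  | th2 c x y P Q R S G T1 T2 =>
    have h1 : Chain p 0 (x :: (Q ++ y :: (G ++ p x :: R)), S ++ p c :: (T1 ++ c :: (P ++ p y :: T2)))
        ((y :: (G ++ p x :: R)) ++ (x :: Q), S ++ p c :: (T1 ++ c :: (P ++ p y :: T2))) := by
      have := Chain.rot (p := p) (x :: Q) (y :: (G ++ p x :: R)) (S ++ p c :: (T1 ++ c :: (P ++ p y :: T2)))
      simpa using this
    have h2 := (Hop.th1 (p := p) y (p x) c G R Q S T1 P T2).chain
    rw [hinv] at h2
    have h3 := Chain.rot (p := p) (p x :: R) (c :: (P ++ x :: Q)) (S ++ y :: (G ++ p c :: (T1 ++ p y :: T2)))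
    have h4 := (h1.trans (by simpa using h2)).trans (by simpa using h3)
    simpa using h4

theorem Chain.symm (hinv : ∀ t, p (p t) = t) {k : ℕ} {s t : St Ω} (h : Chain p k s t) : Chain p k t s := by
  induction h with
  | refl _ => exact .refl _
  | step h1 _ ih =>
    have := ih.trans (h1.symm hinv)
    rwa [add_comm] at this

theorem Hop.perm {k : ℕ} {s t : St Ω} (h : Hop p k s t) : (s.1 ++ s.2).Perm (t.1 ++ t.2) := by
  classical
  rw [List.perm_iff_count]
  intro a
  cases h <;> simp only [List.count_append, List.count_cons] <;> ring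

theorem Chain.perm {k : ℕ} {s t : St Ω} (h : Chain p k s t) : (s.1 ++ s.2).Perm (t.1 ++ t.2) := by
  induction h with
  | refl _ => exact List.Perm.refl _
  | step h1 _ ih => exact h1.perm.trans ih

/-! ### realisation by token moves -/

theorem real_len (e : Ω) (s : St Ω) : ((real p e s).1 ++ (real p e s).2).length = (s.1 ++ s.2).length + 2 := by
  simp only [real, List.length_append, List.length_cons, List.length_nil]
  omega

theorem th1_real (e c x y : Ω) (P Q R S1 S2 G T : List Ω)
    (hN : N p (real p e (c :: (P ++ x :: (Q ++ p x :: R)), S1 ++ p y :: (S2 ++ y :: (G ++ p c :: T))))) :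
    Reach p ((P.length + 1) + (G.length + 1))
      (real p e (c :: (P ++ x :: (Q ++ p x :: R)), S1 ++ p y :: (S2 ++ y :: (G ++ p c :: T))))
      (real p e (x :: (Q ++ y :: (G ++ p x :: R)), S1 ++ c :: (P ++ p y :: (S2 ++ p c :: T)))) := by
  have h1 := rotL (p := p) c (e :: (S1 ++ p y :: S2)) (y :: G) T ((P ++ x :: (Q ++ p x :: R)) ++ [p e]) (by
    simpa [real] using hN)
  have h2 := runR (p := p) y (G ++ e :: S1) (S2 ++ p c :: T) (c :: P) ((x :: (Q ++ p x :: R)) ++ [p e])
    ⟨x, by simp, by simp⟩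
  have h3 := runL (p := p) x Q (R ++ [p e]) (y :: G) (e :: (S1 ++ c :: (P ++ p y :: (S2 ++ p c :: T))))
    ⟨c, by simp, by simp⟩
  have h4 := (h1.trans (by simpa using h2)).trans (by simpa using h3)
  simpa [real] using h4

theorem th2_real (e c x y : Ω) (P Q R S G T1 T2 : List Ω)
    (hN : N p (real p e (c :: (P ++ x :: (Q ++ p x :: R)), S ++ y :: (G ++ p c :: (T1 ++ p y :: T2))))) :
    Reach p ((P.length + 1) + (G.length + 1))
      (real p e (c :: (P ++ x :: (Q ++ p x :: R)), S ++ y :: (G ++ p c :: (T1 ++ p y :: T2))))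
      (real p e (x :: (Q ++ y :: (G ++ p x :: R)), S ++ p c :: (T1 ++ c :: (P ++ p y :: T2)))) := by
  have h1 := rotL (p := p) c (e :: S) (y :: G) (T1 ++ p y :: T2) ((P ++ x :: (Q ++ p x :: R)) ++ [p e]) (by
    simpa [real] using hN)
  have h2 := runR (p := p) y (G ++ e :: (S ++ p c :: T1)) T2 (c :: P) ((x :: (Q ++ p x :: R)) ++ [p e])
    ⟨x, by simp, by simp⟩
  have h3 := runL (p := p) x Q (R ++ [p e]) (y :: G) (e :: (S ++ p c :: (T1 ++ c :: (P ++ p y :: T2))))
    ⟨c, by simp, by simp⟩
  have h4 := (h1.trans (by simpa using h2)).trans (by simpa using h3)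
  simpa [real] using h4

theorem rot_real (e : Ω) (X Y B : List Ω) (hN : N p (real p e (X ++ Y, B))) :
    Reach p 0 (real p e (X ++ Y, B)) (real p e (Y ++ X, B)) := by
  have h1 := rotR (p := p) e X Y [] B (by simpa [real] using hN)
  simpa [real] using h1

theorem cm_real (hinv : ∀ t, p (p t) = t) (e x y z : Ω) (P Q R P' Q' R1 R2 : List Ω)
    (hN : N p (real p e (x :: (P ++ y :: (Q ++ z :: R)), R2 ++ p x :: (P' ++ p y :: (Q' ++ p z :: R1))))) :
    Reach p 0 (real p e (x :: (P ++ y :: (Q ++ z :: R)), R2 ++ p x :: (P' ++ p y :: (Q' ++ p z :: R1))))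
      (real p e (y :: (Q ++ x :: (P ++ z :: R)), R2 ++ p y :: (Q' ++ p x :: (P' ++ p z :: R1)))) := by
  -- rotate the first word: `z R x P y Q`
  have h1 := rot_real (p := p) e (x :: (P ++ y :: Q)) (z :: R) (R2 ++ p x :: (P' ++ p y :: (Q' ++ p z :: R1)))
    (by simpa using hN)
  -- `z` rotates the second word
  have h2 := rotL (p := p) z (e :: (R2 ++ p x :: P')) (p y :: Q') R1 ((R ++ x :: (P ++ y :: Q)) ++ [p e]) (by
    have := h1.right
    simpa [real] using this)
  -- `p y` rotates the first word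
  have h3 := rotR (p := p) (p y) (z :: R) (x :: P) (Q ++ [p e]) (Q' ++ e :: (R2 ++ p x :: (P' ++ p z :: R1))) (by
    have := h2.right
    simpa [hinv] using this)
  -- `x` rotates the second word
  have h4 := rotL (p := p) x (p y :: Q') (e :: R2) (P' ++ p z :: R1) (P ++ z :: (R ++ y :: (Q ++ [p e]))) (by
    have := h3.right
    simpa [hinv] using this)
  have h5 := rot_real (p := p) e (x :: (P ++ z :: R)) (y :: Q) (R2 ++ p y :: (Q' ++ p x :: (P' ++ p z :: R1))) (by
    have := h4.right
    simpa [real] using this)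
  have h6 := (((h1.trans (by simpa [real] using h2)).trans (by simpa [hinv] using h3)).trans
    (by simpa [hinv] using h4)).trans (by simpa [real] using h5)
  simpa [real] using h6

theorem Hop.real (hinv : ∀ t, p (p t) = t) (e : Ω) {k m : ℕ} {s t : St Ω} (h : Hop p k s t)
    (hN : N p (real p e s)) (hm : (s.1 ++ s.2).length ≤ m) : Reach p (k * m) (real p e s) (real p e t) := by
  cases h with
  | rot X Y B => simpa using rot_real e X Y B hN
  | cm x y z P Q R P' Q' R1 R2 => simpa using cm_real hinv e x y z P Q R P' Q' R1 R2 hN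
  | th1 c x y P Q R S1 S2 G T =>
    refine (th1_real e c x y P Q R S1 S2 G T hN).mono ?_
    simp only [List.length_append, List.length_cons] at hm
    omega
  | th2 c x y P Q R S G T1 T2 =>
    refine (th2_real e c x y P Q R S G T1 T2 hN).mono ?_
    simp only [List.length_append, List.length_cons] at hm
    omega

theorem Chain.fwd (hinv : ∀ t, p (p t) = t) (e : Ω) {k m : ℕ} {s t : St Ω} (h : Chain p k s t)
    (hN : N p (real p e s)) (hm : (s.1 ++ s.2).length ≤ m) : Reach p (k * m) (real p e s) (real p e t) := by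
  induction h with
  | refl s => exact .refl _ _ hN
  | step h1 h2 ih =>
    have h3 := h1.real hinv e hN hm
    have h4 := ih h3.right (by rw [← h1.perm.length_eq]; exact hm)
    have h5 := h3.trans h4
    rwa [← Nat.add_mul] at h5

/-- a chain with `k` Theta moves is a round trip of cost `k * m`. -/
theorem Chain.real (hinv : ∀ t, p (p t) = t) (e : Ω) {k m : ℕ} {s t : St Ω} (h : Chain p k s t)
    (hN : N p (real p e s)) (hm : (s.1 ++ s.2).length ≤ m) : RT p (k * m) (real p e s) (real p e t) := by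
  have h1 := h.fwd hinv e hN hm
  exact ⟨h1, (h.symm hinv).fwd hinv e h1.right (by rw [← h.perm.length_eq]; exact hm)⟩

end NTS
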