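import Pool.Agent.helper55.NTS.Lift

/-!
# MP_c8d30a, THEOREM (A): the symbolic machine for Theta moves and triple swaps

A symbolic word is a list of tokens `t l b` (letter `l`, copy `b`) and blocks `w i` (arbitrary words). `Mv`: a Theta move or a triple swap given by letters. `run s l`: the result, `run_sound`: it is a chain for every valuation.
`chkD d s0 s1`: the blocks are in the same words as before and the number of one sided tokens drops by `d`; `drop_sound`.
-/

set_option autoImplicit false

namespace NTS

open NTH

/-- a symbol. -/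
inductive Atom
  | t (l : ℕ) (b : Bool)
  | w (i : ℕ)
deriving DecidableEq

abbrev Sym := List Atom × List Atom

/-- split at the first occurrence. -/
def cut (a : Atom) : List Atom → Option (List Atom × List Atom)
  | [] => none
  | b :: l => if b = a then some ([], l) else (cut a l).map fun r => (b :: r.1, r.2)

/-- split at the first token of a letter. -/
def cutL (n : ℕ) : List Atom → Option (List Atom × Bool × List Atom)
  | [] => none
  | .w i :: l => (cutL n l).map fun r => (.w i :: r.1, r.2)
  | .t m b :: l => if m = n then some ([], b, l) else (cutL n l).map fun r => (.t m b :: r.1, r.2)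

theorem cut_eq {a : Atom} : ∀ {l l1 l2 : List Atom}, cut a l = some (l1, l2) → l = l1 ++ a :: l2 := by
  intro l
  induction l with
  | nil => intro l1 l2 h; simp [cut] at h
  | cons b l ih =>
    intro l1 l2 h
    unfold cut at h
    split_ifs at h with hb
    · simp only [Option.some.injEq, Prod.mk.injEq] at h
      obtain ⟨rfl, rfl⟩ := h
      simp [hb]
    · obtain ⟨⟨r1, r2⟩, h1, h2⟩ := Option.map_eq_some_iff.mp h
      simp only [Prod.mk.injEq] at h2
      obtain ⟨rfl, rfl⟩ := h2
      rw [ih h1]
      simp

theorem cutL_eq {n : ℕ} : ∀ {l l1 l2 : List Atom} {b : Bool}, cutL n l = some (l1, b, l2) → l = l1 ++ .t n b :: l2 := by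
  intro l
  induction l with
  | nil => intro l1 l2 b h; simp [cutL] at h
  | cons a l ih =>
    intro l1 l2 b h
    cases a with
    | w i =>
      simp only [cutL] at h
      obtain ⟨⟨r1, r2, r3⟩, h1, h2⟩ := Option.map_eq_some_iff.mp h
      simp only [Prod.mk.injEq] at h2
      obtain ⟨rfl, rfl, rfl⟩ := h2
      rw [ih h1]
      simp
    | t m c =>
      simp only [cutL] at h
      split_ifs at h with hb
      · simp only [Option.some.injEq, Prod.mk.injEq] at h
        obtain ⟨rfl, rfl, rfl⟩ := h
        simp [hb]
      · obtain ⟨⟨r1, r2, r3⟩, h1, h2⟩ := Option.map_eq_some_iff.mp h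
        simp only [Prod.mk.injEq] at h2
        obtain ⟨rfl, rfl, rfl⟩ := h2
        rw [ih h1]
        simp

/-- the Theta move. -/
def thSym (c x y : ℕ) (s : Sym) : Option Sym :=
  match cutL c s.1 with
  | none => none
  | some (A0, bc, A1) =>
    match cutL x (A1 ++ A0) with
    | none => none
    | some (P, bx, A2) =>
      match cut (.t x (!bx)) A2 with
      | none => none
      | some (Q, R) =>
        match cut (.t c (!bc)) s.2 with
        | none => none
        | some (B0, T) =>
          match cutL y B0.reverse with
          | none => none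
          | some (G, b, S) =>
            match cut (.t y (!b)) S.reverse with
            | some (S1, S2) =>
              some (.t x bx :: (Q ++ .t y b :: (G.reverse ++ .t x (!bx) :: R)),
                S1 ++ .t c bc :: (P ++ .t y (!b) :: (S2 ++ .t c (!bc) :: T)))
            | none =>
              match cut (.t y (!b)) T with
              | none => none
              | some (T1, T2) =>
                some (.t x bx :: (Q ++ .t y b :: (G.reverse ++ .t x (!bx) :: R)),
                  S.reverse ++ .t c (!bc) :: (T1 ++ .t c bc :: (P ++ .t y (!b) :: T2)))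

/-- the triple swap; the three letters are in this order in the second word. -/
def cm0 (x y z : ℕ) (s : Sym) : Option Sym :=
  match cutL x s.1 with
  | none => none
  | some (A0, bx, A1) =>
    match cutL y (A1 ++ A0) with
    | none => none
    | some (P, b, A2) =>
      match cutL z A2 with
      | none => none
      | some (Q, bz, R) =>
        match cut (.t x (!bx)) s.2 with
        | none => none
        | some (R2, B1) =>
          match cut (.t y (!b)) B1 with
          | none => none
          | some (P', B2) =>
            match cut (.t z (!bz)) B2 with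
            | none => none
            | some (Q', R1) =>
              some (.t y b :: (Q ++ .t x bx :: (P ++ .t z bz :: R)),
                R2 ++ .t y (!b) :: (Q' ++ .t x (!bx) :: (P' ++ .t z (!bz) :: R1)))

/-- the triple swap. -/
def cmSym (x y z : ℕ) (s : Sym) : Option Sym :=
  match cm0 x y z s with
  | some t => some t
  | none => match cm0 y z x s with
    | some t => some t
    | none => cm0 z x y s

/-- the moves of a certificate. -/
inductive Mv
  | th (c x y : ℕ)
  | cm (x y z : ℕ)

def mv : Mv → Sym → Option Sym
  | .th c x y => thSym c x y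
  | .cm x y z => cmSym x y z

def run : List Mv → Sym → Option Sym
  | [], s => some s
  | a :: l, s => match mv a s with
    | none => none
    | some t => run l t

/-! ### evaluation -/

universe u
variable {Ω : Type u} {p : Ω → Ω}

/-- the token `b` of the letter `l`. -/
def tk (p : Ω → Ω) (τ : ℕ → Ω) (l : ℕ) (b : Bool) : Ω := if b then p (τ l) else τ l

def ev (p : Ω → Ω) (τ : ℕ → Ω) (β : ℕ → List Ω) : Atom → List Ω
  | .t l b => [tk p τ l b]
  | .w i => β i

def evl (p : Ω → Ω) (τ : ℕ → Ω) (β : ℕ → List Ω) (l : List Atom) : List Ω := l.flatMap (ev p τ β)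

def evs (p : Ω → Ω) (τ : ℕ → Ω) (β : ℕ → List Ω) (s : Sym) : St Ω := (evl p τ β s.1, evl p τ β s.2)

variable {τ : ℕ → Ω} {β : ℕ → List Ω}

@[simp] theorem evl_append (l l' : List Atom) : evl p τ β (l ++ l') = evl p τ β l ++ evl p τ β l' := by
  simp [evl]

@[simp] theorem evl_t (l : ℕ) (b : Bool) (L : List Atom) : evl p τ β (.t l b :: L) = tk p τ l b :: evl p τ β L := by
  simp [evl, ev]

@[simp] theorem evl_w (i : ℕ) (L : List Atom) : evl p τ β (.w i :: L) = β i ++ evl p τ β L := by
  simp [evl, ev]

@[simp] theorem evl_nil : evl p τ β [] = [] := rfl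

theorem p_tk (hinv : ∀ t, p (p t) = t) (l : ℕ) (b : Bool) : p (tk p τ l b) = tk p τ l (!b) := by
  cases b <;> simp [tk, hinv]

theorem thSym_sound (hinv : ∀ t, p (p t) = t) {c x y : ℕ} {s s' : Sym} (h : thSym c x y s = some s') :
    Chain p 1 (evs p τ β s) (evs p τ β s') := by
  obtain ⟨A, B⟩ := s
  unfold thSym at h
  split at h
  · simp at h
  rename_i A0 bc A1 h1
  split at h
  · simp at h
  rename_i P bx A2 h2
  split at h
  · simp at h
  rename_i Q R h3
  split at h
  · simp at h
  rename_i B0 T h4
  split at h
  · simp at h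
  rename_i G b S h5
  have e1 := cutL_eq h1
  have e2 := cutL_eq h2
  have e3 := cut_eq h3
  have e4 := cut_eq h4
  have e5 := cutL_eq h5
  have e6 : B0 = S.reverse ++ .t y b :: G.reverse := by
    have := congrArg List.reverse e5
    simpa using this
  simp only at e1 e4
  have hpc := p_tk (p := p) (τ := τ) hinv c bc
  have hpx := p_tk (p := p) (τ := τ) hinv x bx
  have hpy := p_tk (p := p) (τ := τ) hinv y b
  have hA : evl p τ β (A1 ++ A0) = evl p τ β P ++ tk p τ x bx :: (evl p τ β Q ++ p (tk p τ x bx) :: evl p τ β R) := by
    rw [e2, e3, hpx]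
    simp
  have r1 : Chain p 0 (evs p τ β (A, B)) (tk p τ c bc :: (evl p τ β P ++ tk p τ x bx :: (evl p τ β Q ++ p (tk p τ x bx) :: evl p τ β R)), evl p τ β B) := by
    have := Chain.rot (p := p) (evl p τ β A0) (tk p τ c bc :: evl p τ β A1) (evl p τ β B)
    rw [← hA, evs, e1]
    simpa using this
  split at h
  · rename_i S1 S2 h6
    have e7 := cut_eq h6
    simp only [Option.some.injEq] at h
    subst h
    have r2 := (Hop.th1 (p := p) (tk p τ c bc) (tk p τ x bx) (tk p τ y b) (evl p τ β P) (evl p τ β Q) (evl p τ β R)
      (evl p τ β S1) (evl p τ β S2) (evl p τ β G.reverse) (evl p τ β T)).chain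
    have hB : evl p τ β B = evl p τ β S1 ++ p (tk p τ y b) :: (evl p τ β S2 ++ tk p τ y b :: (evl p τ β G.reverse ++ p (tk p τ c bc) :: evl p τ β T)) := by
      rw [e4, e6, e7, hpy, hpc]
      simp
    rw [← hB] at r2
    have r3 := r1.trans r2
    simpa [evs, hpc, hpx, hpy] using r3
  · split at h
    · simp at h
    · rename_i T1 T2 h6
      have e7 := cut_eq h6
      simp only [Option.some.injEq] at h
      subst h
      have r2 := (Hop.th2 (p := p) (tk p τ c bc) (tk p τ x bx) (tk p τ y b) (evl p τ β P) (evl p τ β Q) (evl p τ β R)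
        (evl p τ β S.reverse) (evl p τ β G.reverse) (evl p τ β T1) (evl p τ β T2)).chain
      have hB : evl p τ β B = evl p τ β S.reverse ++ tk p τ y b :: (evl p τ β G.reverse ++ p (tk p τ c bc) :: (evl p τ β T1 ++ p (tk p τ y b) :: evl p τ β T2)) := by
        rw [e4, e6, e7, hpy, hpc]
        simp
      rw [← hB] at r2
      have r3 := r1.trans r2
      simpa [evs, hpc, hpx, hpy] using r3

theorem cm0_sound (hinv : ∀ t, p (p t) = t) {x y z : ℕ} {s s' : Sym} (h : cm0 x y z s = some s') :
    Chain p 0 (evs p τ β s) (evs p τ β s') := by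
  obtain ⟨A, B⟩ := s
  unfold cm0 at h
  split at h
  · simp at h
  rename_i A0 bx A1 h1
  split at h
  · simp at h
  rename_i P b A2 h2
  split at h
  · simp at h
  rename_i Q bz R h3
  split at h
  · simp at h
  rename_i R2 B1 h4
  split at h
  · simp at h
  rename_i P' B2 h5
  split at h
  · simp at h
  rename_i Q' R1 h6
  have e1 := cutL_eq h1
  have e2 := cutL_eq h2
  have e3 := cutL_eq h3
  have e4 := cut_eq h4
  have e5 := cut_eq h5
  have e6 := cut_eq h6
  simp only [Option.some.injEq] at h
  subst h
  simp only at e1 e4
  have hpx := p_tk (p := p) (τ := τ) hinv x bx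
  have hpy := p_tk (p := p) (τ := τ) hinv y b
  have hpz := p_tk (p := p) (τ := τ) hinv z bz
  have hA : evl p τ β (A1 ++ A0) = evl p τ β P ++ tk p τ y b :: (evl p τ β Q ++ tk p τ z bz :: evl p τ β R) := by
    rw [e2, e3]
    simp
  have r1 : Chain p 0 (evs p τ β (A, B)) (tk p τ x bx :: (evl p τ β P ++ tk p τ y b :: (evl p τ β Q ++ tk p τ z bz :: evl p τ β R)), evl p τ β B) := by
    have := Chain.rot (p := p) (evl p τ β A0) (tk p τ x bx :: evl p τ β A1) (evl p τ β B)
    rw [← hA, evs, e1]
    simpa using this
  have r2 := (Hop.cm (p := p) (tk p τ x bx) (tk p τ y b) (tk p τ z bz) (evl p τ β P) (evl p τ β Q) (evl p τ β R)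
    (evl p τ β P') (evl p τ β Q') (evl p τ β R1) (evl p τ β R2)).chain
  have hB : evl p τ β B = evl p τ β R2 ++ p (tk p τ x bx) :: (evl p τ β P' ++ p (tk p τ y b) :: (evl p τ β Q' ++ p (tk p τ z bz) :: evl p τ β R1)) := by
    rw [e4, e5, e6, hpx, hpy, hpz]
    simp
  rw [← hB] at r2
  have r3 := r1.trans r2
  simpa [evs, hpx, hpy, hpz] using r3

theorem cmSym_sound (hinv : ∀ t, p (p t) = t) {x y z : ℕ} {s s' : Sym} (h : cmSym x y z s = some s') :
    Chain p 0 (evs p τ β s) (evs p τ β s') := by
  unfold cmSym at h
  split at h
  · rename_i t h1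
    simp only [Option.some.injEq] at h
    subst h
    exact cm0_sound hinv h1
  · split at h
    · rename_i t h1
      simp only [Option.some.injEq] at h
      subst h
      exact cm0_sound hinv h1
    · exact cm0_sound hinv h

/-- the number of Theta moves. -/
def cost : List Mv → ℕ
  | [] => 0
  | .th _ _ _ :: l => 1 + cost l
  | .cm _ _ _ :: l => cost l

theorem run_sound (hinv : ∀ t, p (p t) = t) (τ : ℕ → Ω) (β : ℕ → List Ω) : ∀ (l : List Mv) (s s' : Sym), run l s = some s' →
    Chain p (cost l) (evs p τ β s) (evs p τ β s') := by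
  intro l
  induction l with
  | nil =>
    intro s s' h
    simp only [run, Option.some.injEq] at h
    subst h
    exact .refl _
  | cons a l ih =>
    intro s s' h
    simp only [run] at h
    split at h
    · simp at h
    rename_i t h1
    cases a with
    | th c x y => exact (thSym_sound hinv h1).trans (ih _ _ h)
    | cm x y z =>
      have := (cmSym_sound (τ := τ) (β := β) hinv h1).trans (ih _ _ h)
      simpa [cost] using this

end NTS
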